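import Mathlib

/-! The squarefree part `b` of `2^q - 1` (`q` odd) and the Pell equation `T^2 - 2 b U^2 = 1`. -/

set_option autoImplicit false

namespace Pool.Agent.Helper57.MPell

open Pell

/-- odd powers of a solution of Pell's equation with even `d` and odd `x`:
`x(a^(2m+1)) + 1 = (x(a) + 1) V^2` with `V` odd -/
theorem odd_pow {d : ℤ} (hd : Even d) (a : Solution₁ d) (ha : Odd a.x) (m : ℕ) :
    ∃ V : ℤ, Odd V ∧ (a ^ (2 * m + 1)).x + 1 = (a.x + 1) * V ^ 2 := by
  obtain ⟨U, hU⟩ : ∃ U : ℤ, (a ^ m).y = U * a.y := by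
    induction m with
    | zero => exact ⟨0, by simp⟩
    | succ m ih =>
      obtain ⟨U, hU⟩ := ih
      refine ⟨(a ^ m).x + U * a.x, ?_⟩
      rw [pow_succ, Solution₁.y_mul, hU]
      ring
  have h1 : (a ^ m).x ^ 2 - d * (a ^ m).y ^ 2 = 1 := (a ^ m).prop
  have h2 : a.x ^ 2 - d * a.y ^ 2 = 1 := a.prop
  refine ⟨(a ^ m).x + (a.x - 1) * U, ?_, ?_⟩
  · have hx : Odd (a ^ m).x := by
      have h3 : (a ^ m).x ^ 2 = 1 + d * (a ^ m).y ^ 2 := by linarith
      have h4 : Odd ((a ^ m).x ^ 2) := by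
        rw [h3]
        exact Odd.add_even odd_one (hd.mul_right _)
      exact (Int.odd_pow.mp h4).resolve_right (by norm_num)
    have hev : Even ((a.x - 1) * U) := by
      have : Even (a.x - 1) := ha.sub_odd odd_one
      exact this.mul_right _
    exact hx.add_even hev
  · have e1 : a ^ (2 * m + 1) = a ^ m * a ^ m * a := by
      rw [← pow_add, ← pow_succ]; congr 1; ring
    rw [e1, Solution₁.x_mul, Solution₁.x_mul, Solution₁.y_mul]
    rw [hU] at h1 ⊢
    have h5 : d * a.y ^ 2 = a.x ^ 2 - 1 := by linarith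
    have h6 : (a ^ m).x ^ 2 - 1 = (a.x ^ 2 - 1) * U ^ 2 := by
      have : d * (U * a.y) ^ 2 = (d * a.y ^ 2) * U ^ 2 := by ring
      rw [this, h5] at h1
      linarith
    have h7 : (d * (U * a.y * (U * a.y))) = (a.x ^ 2 - 1) * U ^ 2 := by
      rw [← h5]; ring
    have h8 : d * (((a ^ m).x * (U * a.y) + U * a.y * (a ^ m).x) * a.y) =
        2 * (a ^ m).x * U * (a.x ^ 2 - 1) := by
      rw [← h5]; ring
    rw [h7, h8]
    linear_combination (-1 : ℤ) * h6

/-- even powers -/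
theorem even_pow {d : ℤ} (a : Solution₁ d) (m : ℕ) :
    (a ^ (2 * m)).x + 1 = 2 * (a ^ m).x ^ 2 := by
  have h1 : (a ^ m).x ^ 2 - d * (a ^ m).y ^ 2 = 1 := (a ^ m).prop
  have e1 : a ^ (2 * m) = a ^ m * a ^ m := by
    rw [← pow_add]; congr 1; ring
  rw [e1, Solution₁.x_mul]
  linarith

end Pool.Agent.Helper57.MPell
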