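import Pool.Agent.Helper57.MPell.Main

set_option autoImplicit false

namespace Pool.Agent.Helper57.MPell

/-- a number whose prime factors are all `1` or `7` modulo `8`, squarefree and congruent to `7`,
has a prime factor congruent to `7` -/
theorem exists_seven {b : ℕ} (hb : Squarefree b)
    (h : ∀ p : ℕ, p.Prime → p ∣ b → p % 8 = 1 ∨ p % 8 = 7) (h7 : b % 8 = 7) :
    ∃ p : ℕ, p.Prime ∧ p ∣ b ∧ p % 8 = 7 := by
  by_contra hc
  push Not at hc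
  have h1 : ∀ p ∈ b.primeFactors, p % 8 = 1 := by
    intro p hp
    have hpp := Nat.prime_of_mem_primeFactors hp
    have hpb := Nat.dvd_of_mem_primeFactors hp
    rcases h p hpp hpb with h | h
    · exact h
    · exact absurd h (hc p hpp hpb)
  have h2 : (∏ p ∈ b.primeFactors, p) % 8 = 1 := by
    have h3 : ∀ s : Finset ℕ, (∀ p ∈ s, p % 8 = 1) → (∏ p ∈ s, p) % 8 = 1 := by
      intro s
      induction s using Finset.induction_on with
      | empty => intro _; simp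
      | insert a s has ih =>
        intro hs
        rw [Finset.prod_insert has, Nat.mul_mod, hs a (Finset.mem_insert_self a s),
          ih (fun p hp => hs p (Finset.mem_insert_of_mem hp))]
    exact h3 _ h1
  rw [Nat.prod_primeFactors_of_squarefree hb] at h2
  omega

/-- prime factors of `2^q - 1`, `q` odd -/
theorem mod8_of_dvd {q p : ℕ} (hodd : Odd q) (hp : p.Prime) (h : p ∣ 2 ^ q - 1) :
    p % 8 = 1 ∨ p % 8 = 7 := by
  haveI := Fact.mk hp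
  have h1 : 1 ≤ 2 ^ q := Nat.one_le_two_pow
  have hp2 : p ≠ 2 := by
    rintro rfl
    have := odd_mersenne (q := q) hodd.pos
    omega
  have h2 : (2 : ZMod p) ^ q = 1 := by
    have h3 : ((2 ^ q - 1 : ℕ) : ZMod p) = 0 := (ZMod.natCast_eq_zero_iff _ _).mpr h
    rw [Nat.cast_sub h1] at h3
    push_cast at h3
    exact sub_eq_zero.mp h3
  rw [← ZMod.exists_sq_eq_two_iff hp2]
  obtain ⟨k, hk⟩ := hodd
  refine ⟨2 ^ (k + 1), ?_⟩
  rw [← pow_add]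
  have e : k + 1 + (k + 1) = q + 1 := by omega
  rw [e, pow_succ, h2, one_mul]

theorem order_eq {q p : ℕ} (hq : q.Prime) (hp : p.Prime) (h : p ∣ 2 ^ q - 1) :
    orderOf (2 : ZMod p) = q := by
  haveI := Fact.mk hp
  have h1 : 1 ≤ 2 ^ q := Nat.one_le_two_pow
  have h2 : (2 : ZMod p) ^ q = 1 := by
    have h3 : ((2 ^ q - 1 : ℕ) : ZMod p) = 0 := (ZMod.natCast_eq_zero_iff _ _).mpr h
    rw [Nat.cast_sub h1] at h3
    push_cast at h3
    exact sub_eq_zero.mp h3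
  have h3 := orderOf_dvd_of_pow_eq_one h2
  rcases (Nat.dvd_prime hq).mp h3 with h4 | h4
  · exfalso
    rw [orderOf_eq_one_iff] at h4
    have h5 : (1 : ZMod p) = 0 := by linear_combination h4
    exact one_ne_zero h5
  · exact h4

theorem cube {q : ℕ} (hq : q.Prime)
    (h : ∀ p : ℕ, p.Prime → p ∣ 2 ^ q - 1 → p ^ 2 ∣ 2 ^ q - 1) :
    ∃ p : ℕ, p.Prime ∧ p % 8 = 7 ∧ orderOf (2 : ZMod p) = q ∧ p ^ 3 ∣ 2 ^ q - 1 ∧
      p ^ 3 ∣ 2 ^ (p - 1) - 1 := by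
  have hq2 : q ≠ 2 := by
    rintro rfl
    have := h 3 (by norm_num) (by norm_num)
    norm_num at this
  have hodd : Odd q := hq.odd_of_ne_two hq2
  have hq3 : 3 ≤ q := by
    have := hq.two_le
    omega
  obtain ⟨b, w, hwb, hb⟩ := Nat.sq_mul_squarefree (2 ^ q - 1)
  have hM : 2 ^ q - 1 = b * w ^ 2 := by rw [← hwb]; ring
  have hb7 := b_mod8 hq3 hM
  have hbw : b ∣ w := by
    have := (powerful_iff (by omega) hb hM 0).mp h
    simpa using this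
  obtain ⟨p, hp, hpb, hp7⟩ := exists_seven hb
    (fun p hp hpb => mod8_of_dvd hodd hp (by rw [hM]; exact dvd_mul_of_dvd_left hpb _)) hb7
  have hpM : p ∣ 2 ^ q - 1 := by rw [hM]; exact dvd_mul_of_dvd_left hpb _
  have hord := order_eq hq hp hpM
  have h3 : p ^ 3 ∣ 2 ^ q - 1 := by
    rw [hM]
    have h4 : p ∣ w := hpb.trans hbw
    have : p * p ^ 2 ∣ b * w ^ 2 := mul_dvd_mul hpb (pow_dvd_pow_of_dvd h4 2)
    have e : p * p ^ 2 = p ^ 3 := by ring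
    rwa [e] at this
  refine ⟨p, hp, hp7, hord, h3, ?_⟩
  haveI := Fact.mk hp
  have h5 : q ∣ p - 1 := by
    rw [← hord]
    apply orderOf_dvd_of_pow_eq_one
    apply ZMod.pow_card_sub_one_eq_one
    intro h0
    have h6 : ((2 : ℕ) : ZMod p) = 0 := by exact_mod_cast h0
    rw [ZMod.natCast_eq_zero_iff] at h6
    have := Nat.le_of_dvd (by norm_num) h6
    omega
  obtain ⟨k, hk⟩ := h5
  have h6 : 2 ^ q - 1 ∣ 2 ^ (p - 1) - 1 := by
    rw [hk, pow_mul]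
    simpa using Nat.sub_one_dvd_pow_sub_one (2 ^ q) k
  exact h3.trans h6

theorem injective_part {q q' b w w' : ℕ} (ho : Odd q) (ho' : Odd q') (hq : 3 ≤ q) (hq' : 3 ≤ q')
    (hb : Squarefree b) (h : 2 ^ q - 1 = b * w ^ 2) (h' : 2 ^ q' - 1 = b * w' ^ 2) : q = q' := by
  have key : ∀ {q q' b w w' : ℕ}, Odd q → Odd q' → 3 ≤ q → 3 ≤ q' → Squarefree b →
      2 ^ q - 1 = b * w ^ 2 → 2 ^ q' - 1 = b * w' ^ 2 → q ≤ q' := by
    intro q q' b w w' ho ho' hq hq' hb h h'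
    have hw' := (odd_w (by omega) h').1
    have h1 := fundamental ho hq hb h (2 ^ (q' + 1) - 1) (2 ^ ((q' + 1) / 2) * w')
      (by have : 0 < w' := by omega
          positivity) (pell_identity ho' h')
    have h2 : 1 ≤ 2 ^ (q' + 1) := Nat.one_le_two_pow
    have h3 : 2 ^ (q + 1) ≤ 2 ^ (q' + 1) := by omega
    have h4 := (Nat.pow_le_pow_iff_right (a := 2) (by norm_num)).mp h3
    omega
  exact le_antisymm (key ho ho' hq hq' hb h h') (key ho' ho hq' hq hb h' h)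

theorem count (x : ℕ) :
    {q : ℕ | q.Prime ∧ q ≤ x ∧ ∀ p : ℕ, p.Prime → p ∣ 2 ^ q - 1 → p ^ 2 ∣ 2 ^ q - 1}.ncard ≤
      {p : ℕ | p.Prime ∧ p % 8 = 7 ∧ p ^ 3 < 2 ^ x ∧ p ^ 3 ∣ 2 ^ (p - 1) - 1}.ncard := by
  classical
  have H : ∀ q : ℕ, ∃ p : ℕ, (q.Prime ∧ ∀ p : ℕ, p.Prime → p ∣ 2 ^ q - 1 → p ^ 2 ∣ 2 ^ q - 1) →
      p.Prime ∧ p % 8 = 7 ∧ orderOf (2 : ZMod p) = q ∧ p ^ 3 ∣ 2 ^ q - 1 ∧
        p ^ 3 ∣ 2 ^ (p - 1) - 1 := by
    intro q
    by_cases h : q.Prime ∧ ∀ p : ℕ, p.Prime → p ∣ 2 ^ q - 1 → p ^ 2 ∣ 2 ^ q - 1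
    · obtain ⟨p, hp⟩ := cube h.1 h.2
      exact ⟨p, fun _ => hp⟩
    · exact ⟨0, fun h' => absurd h' h⟩
  choose f hf using H
  have hfin : {p : ℕ | p.Prime ∧ p % 8 = 7 ∧ p ^ 3 < 2 ^ x ∧ p ^ 3 ∣ 2 ^ (p - 1) - 1}.Finite := by
    apply (Set.finite_lt_nat (2 ^ x)).subset
    rintro p ⟨hp, -, h1, -⟩
    have : p ≤ p ^ 3 := Nat.le_self_pow (by norm_num) p
    exact lt_of_le_of_lt this h1
  apply Set.ncard_le_ncard_of_injOn f ?_ ?_ hfin
  · rintro q ⟨hq, hqx, h⟩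
    obtain ⟨h1, h2, h3, h4, h5⟩ := hf q ⟨hq, h⟩
    refine ⟨h1, h2, ?_, h5⟩
    have h6 : 2 ≤ 2 ^ q := by
      calc 2 = 2 ^ 1 := by norm_num
        _ ≤ 2 ^ q := Nat.pow_le_pow_right (by norm_num) hq.pos
    have h7 := Nat.le_of_dvd (by omega) h4
    have h8 : 2 ^ q ≤ 2 ^ x := Nat.pow_le_pow_right (by norm_num) hqx
    omega
  · rintro q ⟨hq, -, h⟩ q' ⟨hq', -, h'⟩ he
    have h1 := (hf q ⟨hq, h⟩).2.2.1
    have h2 := (hf q' ⟨hq', h'⟩).2.2.1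
    rw [← h1, ← h2, he]

end Pool.Agent.Helper57.MPell
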