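import Pool.Agent.Helper57.MPell.Basic

set_option autoImplicit false

namespace Pool.Agent.Helper57.MPell

open Pell

theorem odd_mersenne {q : ℕ} (hq : 1 ≤ q) : (2 ^ q - 1 : ℕ) % 2 = 1 := by
  obtain ⟨k, rfl⟩ : ∃ k, q = k + 1 := ⟨q - 1, by omega⟩
  have h : 1 ≤ 2 ^ k := Nat.one_le_two_pow
  rw [pow_succ]; omega

theorem mersenne_mod8 {q : ℕ} (hq : 3 ≤ q) : (2 ^ q - 1 : ℕ) % 8 = 7 := by
  obtain ⟨k, rfl⟩ : ∃ k, q = k + 3 := ⟨q - 3, by omega⟩
  have h : 1 ≤ 2 ^ k := Nat.one_le_two_pow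
  rw [pow_add]; omega

theorem sq_mod8 {w : ℕ} (hw : w % 2 = 1) : w ^ 2 % 8 = 1 := by
  have h : w % 8 = 1 ∨ w % 8 = 3 ∨ w % 8 = 5 ∨ w % 8 = 7 := by omega
  rcases h with h | h | h | h <;> simp [Nat.pow_mod, h]

theorem odd_w {q b w : ℕ} (hq : 1 ≤ q) (h : 2 ^ q - 1 = b * w ^ 2) : w % 2 = 1 ∧ b % 2 = 1 := by
  have h1 := odd_mersenne hq
  rw [h] at h1
  have h2 : Odd (b * w ^ 2) := Nat.odd_iff.mpr h1
  rw [Nat.odd_mul] at h2
  have h3 : Odd w := by
    by_contra hc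
    rw [Nat.not_odd_iff_even] at hc
    have : Even (w ^ 2) := by rw [Nat.even_pow]; exact ⟨hc, by norm_num⟩
    exact (Nat.not_odd_iff_even.mpr this) h2.2
  exact ⟨Nat.odd_iff.mp h3, Nat.odd_iff.mp h2.1⟩

theorem b_mod8 {q b w : ℕ} (hq : 3 ≤ q) (h : 2 ^ q - 1 = b * w ^ 2) : b % 8 = 7 := by
  have h1 := mersenne_mod8 hq
  have h2 := sq_mod8 (odd_w (by omega) h).1
  rw [h, Nat.mul_mod, h2, mul_one, Nat.mod_mod] at h1
  exact h1

/-- the identity -/
theorem pell_identity {q b w : ℕ} (hodd : Odd q) (h : 2 ^ q - 1 = b * w ^ 2) :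
    (2 ^ (q + 1) - 1 : ℕ) ^ 2 = 2 * b * (2 ^ ((q + 1) / 2) * w) ^ 2 + 1 := by
  obtain ⟨k, rfl⟩ := hodd
  have e : (2 * k + 1 + 1) / 2 = k + 1 := by omega
  rw [e]
  have h1 : 1 ≤ 2 ^ (2 * k + 1) := Nat.one_le_two_pow
  have h2 : 1 ≤ 2 ^ (2 * k + 1 + 1) := Nat.one_le_two_pow
  have hb : (b : ℤ) * w ^ 2 = 2 ^ (2 * k + 1) - 1 := by
    have := congrArg (Nat.cast : ℕ → ℤ) h
    push_cast [Nat.cast_sub h1] at this
    linarith
  zify [h2]
  have e3 : (2 : ℤ) * b * (2 ^ (k + 1) * w) ^ 2 = 2 * 2 ^ (2 * k + 1 + 1) * (b * w ^ 2) := by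
    have : ((2 : ℤ) ^ (k + 1)) ^ 2 = 2 ^ (2 * k + 1 + 1) := by
      rw [← pow_mul]; congr 1; ring
    rw [mul_pow, this]; ring
  rw [e3, hb]
  ring

/-- the fundamental solution of `T^2 - 2 b U^2 = 1` -/
theorem fundamental {q b w : ℕ} (hodd : Odd q) (hq : 3 ≤ q) (hb : Squarefree b)
    (h : 2 ^ q - 1 = b * w ^ 2) (T U : ℕ) (hU : 0 < U) (hTU : T ^ 2 = 2 * b * U ^ 2 + 1) :
    2 ^ (q + 1) - 1 ≤ T := by
  have hb8 := b_mod8 hq h
  have hw := (odd_w (by omega) h).1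
  have hbpos : 0 < b := by omega
  set d : ℤ := 2 * (b : ℤ) with hd
  have hd0 : 0 < d := by positivity
  have hdns : ¬ IsSquare d := by
    rintro ⟨r, hr⟩
    have h1 : (2 : ℤ) ∣ r * r := ⟨b, by rw [← hr]⟩
    have h2 : (2 : ℤ) ∣ r := by
      rcases Int.prime_two.dvd_or_dvd h1 with h | h <;> exact h
    obtain ⟨t, rfl⟩ := h2
    have h3 : (b : ℤ) = 2 * (t * t) := by linarith
    omega
  have hdev : Even d := ⟨b, by rw [hd]; ring⟩
  obtain ⟨a, ha⟩ := IsFundamental.exists_of_not_isSquare hd0 hdns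
  have hid := pell_identity hodd h
  have h2q : (1 : ℕ) ≤ 2 ^ (q + 1) := Nat.one_le_two_pow
  have hid' : ((2 : ℤ) ^ (q + 1) - 1) ^ 2 - d * ((2 : ℤ) ^ ((q + 1) / 2) * w) ^ 2 = 1 := by
    have := congrArg (Nat.cast : ℕ → ℤ) hid
    push_cast [Nat.cast_sub h2q] at this
    rw [hd]; linarith
  set s : Solution₁ d := Solution₁.mk _ _ hid' with hs
  have hsx : s.x = (2 : ℤ) ^ (q + 1) - 1 := rfl
  have hsy : s.y = (2 : ℤ) ^ ((q + 1) / 2) * w := rfl
  have h4 : (4 : ℤ) ≤ 2 ^ (q + 1) := by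
    calc (4 : ℤ) = 2 ^ 2 := by norm_num
      _ ≤ 2 ^ (q + 1) := pow_le_pow_right₀ (by norm_num) (by omega)
  obtain ⟨n, hn⟩ := ha.eq_pow_of_nonneg (a := s) (by rw [hsx]; linarith) (by rw [hsy]; positivity)
  -- `a.x` is odd
  have hax : Odd a.x := by
    have h3 : a.x ^ 2 = 1 + d * a.y ^ 2 := a.prop_x
    have h4 : Odd (a.x ^ 2) := by
      rw [h3]
      exact Odd.add_even odd_one (hdev.mul_right _)
    exact (Int.odd_pow.mp h4).resolve_right (by norm_num)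
  have hfin : a.x + 1 = 2 ^ (q + 1) := by
    rcases Nat.even_or_odd' n with ⟨m, rfl | rfl⟩
    · exfalso
      have h5 := even_pow a m
      rw [← hn, hsx] at h5
      have h6 : ((a ^ m).x) ^ 2 = 2 ^ q := by
        have : (2 : ℤ) ^ (q + 1) = 2 * 2 ^ q := by rw [pow_succ]; ring
        linarith
      obtain ⟨k, hk⟩ := hodd
      -- a square equal to an odd power of two
      have h7 : IsSquare ((2 : ℤ) ^ q) := ⟨(a ^ m).x, by rw [← h6]; ring⟩
      have h8 : IsSquare ((2 : ℤ)) := by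
        have e : (2 : ℤ) ^ q = 2 * (2 ^ k) ^ 2 := by rw [hk]; ring
        rw [e] at h7
        obtain ⟨r, hr⟩ := h7
        have h9 : ((2 : ℤ) ^ k) ^ 2 ∣ r ^ 2 := ⟨2, by linarith⟩
        have h10 : (2 : ℤ) ^ k ∣ r := by
          rwa [Int.pow_dvd_pow_iff (by norm_num)] at h9
        obtain ⟨t, rfl⟩ := h10
        refine ⟨t, ?_⟩
        have hne : ((2 : ℤ) ^ k) ^ 2 ≠ 0 := by positivity
        have : ((2 : ℤ) ^ k) ^ 2 * (2 - t * t) = 0 := by linarith
        rcases mul_eq_zero.mp this with h | h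
        · exact absurd h hne
        · linarith
      obtain ⟨r, hr⟩ := h8
      have : r < 2 := by nlinarith
      have : -2 < r := by nlinarith
      have : r = -1 ∨ r = 0 ∨ r = 1 := by omega
      rcases this with h | h | h <;> subst h <;> norm_num at hr
    · obtain ⟨V, hV, hV2⟩ := odd_pow hdev a hax m
      rw [← hn, hsx] at hV2
      have h5 : V ^ 2 ∣ 2 ^ (q + 1) := ⟨a.x + 1, by linarith⟩
      have h6 : IsCoprime (V ^ 2) ((2 : ℤ) ^ (q + 1)) := by
        apply IsCoprime.pow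
        obtain ⟨k, hk⟩ := hV
        exact ⟨1, -k, by rw [hk]; ring⟩
      have h7 : IsUnit (V ^ 2) := h6.isUnit_of_dvd h5
      have h8 : V ^ 2 = 1 := by
        rcases Int.isUnit_iff.mp h7 with h | h
        · exact h
        · nlinarith [sq_nonneg V]
      rw [h8] at hV2
      linarith
  have hT : 1 < T := by
    by_contra hc
    have : T ^ 2 ≤ 1 := by
      have : T ≤ 1 := by omega
      calc T ^ 2 ≤ 1 ^ 2 := Nat.pow_le_pow_left this 2
        _ = 1 := by norm_num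
    have h5 : 0 < 2 * b * U ^ 2 := by positivity
    omega
  have hTU' : (T : ℤ) ^ 2 - d * (U : ℤ) ^ 2 = 1 := by
    have := congrArg (Nat.cast : ℕ → ℤ) hTU
    push_cast at this
    rw [hd]; linarith
  have h9 := ha.x_le_x (a := Solution₁.mk _ _ hTU') (by simpa using hT)
  have h10 : a.x ≤ (T : ℤ) := by simpa using h9
  have h11 : ((2 ^ (q + 1) - 1 : ℕ) : ℤ) ≤ T := by
    push_cast [Nat.cast_sub h2q]
    linarith
  exact_mod_cast h11

/-- powerful iff `b | U` -/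
theorem powerful_iff {q b w : ℕ} (hq : 1 ≤ q) (hb : Squarefree b)
    (h : 2 ^ q - 1 = b * w ^ 2) (j : ℕ) :
    (∀ p : ℕ, p.Prime → p ∣ 2 ^ q - 1 → p ^ 2 ∣ 2 ^ q - 1) ↔ b ∣ 2 ^ j * w := by
  have hbodd := (odd_w hq h).2
  have hcop : Nat.Coprime b (2 ^ j) := by
    apply Nat.Coprime.pow_right
    rw [Nat.coprime_comm, Nat.Prime.coprime_iff_not_dvd Nat.prime_two]
    omega
  have e1 : b ∣ 2 ^ j * w ↔ b ∣ w := hcop.dvd_mul_left
  rw [e1]
  constructor
  · intro hp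
    rw [← Nat.prod_primeFactors_of_squarefree hb]
    apply Finset.prod_primes_dvd
    · intro p hp'
      exact (Nat.prime_of_mem_primeFactors hp').prime
    · intro p hp'
      have hpp := Nat.prime_of_mem_primeFactors hp'
      have hpb := Nat.dvd_of_mem_primeFactors hp'
      have h1 := hp p hpp (by rw [h]; exact dvd_mul_of_dvd_left hpb _)
      rw [h] at h1
      obtain ⟨c, rfl⟩ := hpb
      have h2 : p ∣ c * w ^ 2 := by
        have : p * p ∣ p * (c * w ^ 2) := by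
          have e : p * c * w ^ 2 = p * (c * w ^ 2) := by ring
          rwa [← e, ← sq]
        exact Nat.dvd_of_mul_dvd_mul_left hpp.pos this
      rcases hpp.dvd_mul.mp h2 with h3 | h3
      · exfalso
        have h4 : p * p ∣ p * c := Nat.mul_dvd_mul_left p h3
        exact hpp.not_isUnit (hb p h4)
      · exact hpp.dvd_of_dvd_pow h3
  · intro hbw p hpp hp
    rw [h] at hp ⊢
    have h3 : p ∣ w := by
      rcases hpp.dvd_mul.mp hp with h3 | h3
      · exact h3.trans hbw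
      · exact hpp.dvd_of_dvd_pow h3
    exact dvd_mul_of_dvd_right (pow_dvd_pow_of_dvd h3 2) _

end Pool.Agent.Helper57.MPell
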